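import Pool.Agent.W610.HY.Stm

set_option autoImplicit false

/-!
Project HY, part HYPO: the hypotheses of the theorem in terms of `mm`.
-/

namespace Pool.Agent.W435.HY.HYPO

open Pool.Agent.W610.HY
open MeasureTheory Set Metric Filter Topology

theorem main : HYPO := by
  intro 𝒜 _ _ _ a U hU hvol hint
  have hae : ∀ᵐ z ∂(volume.restrict U), z ∉ spectrum ℂ a := by
    rw [← measure_eq_zero_iff_ae_notMem]
    rw [Measure.restrict_apply' hU.measurableSet]
    exact hvol
  have h1 : (∫⁻ z in U, mm a z)
      = ∫⁻ z in U, ENNReal.ofReal (Real.posLog ‖resolvent a z‖) := by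
    refine lintegral_congr_ae ?_
    filter_upwards [hae] with z hz
    simp [mm, hz]
  rw [h1]
  exact (Integrable.lintegral_lt_top hint).ne

end Pool.Agent.W435.HY.HYPO
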